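import Mathlib

set_option autoImplicit false

namespace Pool.Agent.Results.MP_6087e2_al.All

open Matrix Quaternion FreeGroup

abbrev F := FreeGroup (Fin 2)

def lz : Fin 2 × Bool → ℍ[ℤ]
  | (0, true) => ⟨3, 4, 0, 0⟩
  | (0, false) => ⟨3, -4, 0, 0⟩
  | (1, true) => ⟨3, 0, 4, 0⟩
  | (1, false) => ⟨3, 0, -4, 0⟩

def Wz (L : List (Fin 2 × Bool)) : ℍ[ℤ] := L.foldr (fun s y => lz s * y) 1

def Z5 (y : ℍ[ℤ]) : Prop := 5 ∣ y.re ∧ 5 ∣ y.imI ∧ 5 ∣ y.imJ ∧ 5 ∣ y.imK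

lemma z_step (s s' : Fin 2 × Bool) (y : ℍ[ℤ]) (h1 : Z5 (star (lz s) * y)) (h2 : Z5 (lz s' * y))
    (h : s'.1 = s.1 → s'.2 = s.2) : Z5 y := by
  obtain ⟨a, b⟩ := s
  obtain ⟨a', b'⟩ := s'
  obtain ⟨y0, y1, y2, y3⟩ := y
  fin_cases a <;> fin_cases a' <;> cases b <;> cases b' <;>
    simp [Z5, lz] at h1 h2 h ⊢ <;> omega

lemma z_ann (s : Fin 2 × Bool) (y : ℍ[ℤ]) : Z5 (star (lz s) * (lz s * y)) := by
  obtain ⟨a, b⟩ := s
  obtain ⟨y0, y1, y2, y3⟩ := y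
  fin_cases a <;> cases b <;> simp [Z5, lz] <;> omega

lemma z_ne (L : List (Fin 2 × Bool)) (h : IsReduced L) : ¬ Z5 (Wz L) := by
  induction L with
  | nil => simp [Wz, Z5]
  | cons s L ih =>
    cases L with
    | nil =>
      obtain ⟨a, b⟩ := s
      fin_cases a <;> cases b <;> simp [Wz, Z5, lz]
    | cons t L =>
      rw [isReduced_cons_cons] at h
      intro hz
      exact ih h.2 (z_step t s _ (z_ann t _) hz h.1)

def cz (y : ℍ[ℤ]) : ℍ[ℝ] := ⟨y.re, y.imI, y.imJ, y.imK⟩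

lemma cz_mul (x y : ℍ[ℤ]) : cz (x * y) = cz x * cz y := by
  ext <;> simp [cz]

noncomputable def gen : Fin 2 → unitary ℍ[ℝ]
  | 0 => ⟨⟨3 / 5, 4 / 5, 0, 0⟩, by constructor <;> ext <;> simp <;> norm_num⟩
  | 1 => ⟨⟨3 / 5, 0, 4 / 5, 0⟩, by constructor <;> ext <;> simp <;> norm_num⟩

noncomputable def φ : F →* unitary ℍ[ℝ] := FreeGroup.lift gen

lemma φ_letter (s : Fin 2 × Bool) : (5 : ℝ) • (φ (mk [s]) : ℍ[ℝ]) = cz (lz s) := by
  obtain ⟨a, b⟩ := s
  cases b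
  · have : (mk [(a, false)] : F) = (of a)⁻¹ := rfl
    rw [this, _root_.map_inv, φ, lift_apply_of, ← Unitary.star_eq_inv, Unitary.coe_star]
    fin_cases a <;> ext <;> simp [gen, lz, cz] <;> norm_num
  · have : (mk [(a, true)] : F) = of a := rfl
    rw [this, φ, lift_apply_of]
    fin_cases a <;> ext <;> simp [gen, lz, cz] <;> norm_num

lemma φ_mk (L : List (Fin 2 × Bool)) :
    ((5 : ℝ) ^ L.length) • (φ (mk L) : ℍ[ℝ]) = cz (Wz L) := by
  induction L with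
  | nil =>
    have : (mk [] : F) = 1 := rfl
    rw [this, _root_.map_one]; ext <;> simp [Wz, cz]
  | cons s L ih =>
    have e : (mk (s :: L) : F) = mk [s] * mk L := rfl
    have e2 : Wz (s :: L) = lz s * Wz L := rfl
    rw [e, e2, _root_.map_mul, cz_mul, ← ih, ← φ_letter, List.length_cons, pow_succ,
      Submonoid.coe_mul, smul_mul_smul_comm, mul_comm ((5 : ℝ) ^ L.length)]

lemma free_im (w : F) (h1 : (φ w : ℍ[ℝ]).imI = 0) (h2 : (φ w : ℍ[ℝ]).imJ = 0)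
    (h3 : (φ w : ℍ[ℝ]).imK = 0) : w = 1 := by
  have h := φ_mk w.toWord
  rw [mk_toWord] at h
  have hr : IsReduced w.toWord := isReduced_toWord
  have hz := z_ne _ hr
  cases hw : w.toWord with
  | nil => exact toWord_eq_nil_iff.1 hw
  | cons s L =>
    exfalso
    have e1 : (Wz w.toWord).imI = 0 := by
      have := congrArg QuaternionAlgebra.imI h
      simp [cz, h1] at this; exact_mod_cast this.symm
    have e2 : (Wz w.toWord).imJ = 0 := by
      have := congrArg QuaternionAlgebra.imJ h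
      simp [cz, h2] at this; exact_mod_cast this.symm
    have e3 : (Wz w.toWord).imK = 0 := by
      have := congrArg QuaternionAlgebra.imK h
      simp [cz, h3] at this; exact_mod_cast this.symm
    have ha := z_ann s (Wz L)
    have e : lz s * Wz L = Wz w.toWord := by rw [hw]; rfl
    rw [e] at ha
    apply hz
    generalize Wz w.toWord = y at *
    obtain ⟨y0, y1, y2, y3⟩ := y
    obtain ⟨a, b⟩ := s
    simp only at e1 e2 e3
    subst e1 e2 e3
    fin_cases a <;> cases b <;> simp [Z5, lz] at ha ⊢ <;> omega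

lemma φ_inj : Function.Injective φ := by
  rw [injective_iff_map_eq_one]
  intro w hw
  apply free_im <;> rw [hw] <;> simp

lemma comm_of_sq (u v : F) (h : u ^ 2 * v ^ 2 = v ^ 2 * u ^ 2) : u * v = v * u := by
  have h1 : (v ^ 2)⁻¹ * u * v ^ 2 = u := by
    apply pow_left_injective (n := 2) (by norm_num)
    show ((v ^ 2)⁻¹ * u * v ^ 2) ^ 2 = u ^ 2
    calc ((v ^ 2)⁻¹ * u * v ^ 2) ^ 2 = (v ^ 2)⁻¹ * (u ^ 2 * v ^ 2) := by
          rw [sq ((v ^ 2)⁻¹ * u * v ^ 2), sq u]; group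
      _ = u ^ 2 := by rw [h]; group
  have h2 : u⁻¹ * v * u = v := by
    apply pow_left_injective (n := 2) (by norm_num)
    show (u⁻¹ * v * u) ^ 2 = v ^ 2
    calc (u⁻¹ * v * u) ^ 2 = u⁻¹ * (v ^ 2 * ((v ^ 2)⁻¹ * u * v ^ 2)) := by
          rw [h1, sq, sq]; group
      _ = v ^ 2 := by group
  calc u * v = u * (u⁻¹ * v * u) := by rw [h2]
    _ = v * u := by group

/-! ### matrices -/

def C3 (q : ℍ[ℝ]) : Matrix (Fin 3) (Fin 3) ℝ :=
  !![q.re ^ 2 + q.imI ^ 2 - q.imJ ^ 2 - q.imK ^ 2, 2 * (q.imI * q.imJ - q.re * q.imK),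
      2 * (q.imI * q.imK + q.re * q.imJ);
    2 * (q.imI * q.imJ + q.re * q.imK), q.re ^ 2 - q.imI ^ 2 + q.imJ ^ 2 - q.imK ^ 2,
      2 * (q.imJ * q.imK - q.re * q.imI);
    2 * (q.imI * q.imK - q.re * q.imJ), 2 * (q.imJ * q.imK + q.re * q.imI),
      q.re ^ 2 - q.imI ^ 2 - q.imJ ^ 2 + q.imK ^ 2]

lemma C3_mul (p q : ℍ[ℝ]) : C3 (p * q) = C3 p * C3 q := by
  ext i j
  fin_cases i <;> fin_cases j <;> simp [C3, Matrix.mul_apply, Fin.sum_univ_three] <;> ring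

lemma C3_one : C3 1 = 1 := by
  ext i j
  fin_cases i <;> fin_cases j <;> simp [C3]

lemma C3_star (q : ℍ[ℝ]) : (C3 q)ᵀ = C3 (star q) := by
  ext i j
  fin_cases i <;> fin_cases j <;> simp [C3] <;> ring

lemma C3_det (q : ℍ[ℝ]) : (C3 q).det = normSq q ^ 3 := by
  rw [Matrix.det_fin_three, normSq_def']; simp [C3]; ring

def im3 (x : Fin 3 → ℝ) : ℍ[ℝ] := ⟨0, x 0, x 1, x 2⟩

lemma C3_act (q : ℍ[ℝ]) (x : Fin 3 → ℝ) : im3 (C3 q *ᵥ x) = q * im3 x * star q := by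
  ext <;> simp [im3, C3, Matrix.mulVec, dotProduct, Fin.sum_univ_three] <;> ring

def Lm (q : ℍ[ℝ]) : Matrix (Fin 4) (Fin 4) ℝ :=
  !![q.re, -q.imI, -q.imJ, -q.imK; q.imI, q.re, -q.imK, q.imJ;
    q.imJ, q.imK, q.re, -q.imI; q.imK, -q.imJ, q.imI, q.re]

def Rm (q : ℍ[ℝ]) : Matrix (Fin 4) (Fin 4) ℝ :=
  !![q.re, q.imI, q.imJ, q.imK; -q.imI, q.re, -q.imK, q.imJ;
    -q.imJ, q.imK, q.re, -q.imI; -q.imK, -q.imJ, q.imI, q.re]

lemma Lm_mul (p q : ℍ[ℝ]) : Lm (p * q) = Lm p * Lm q := by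
  ext i j
  fin_cases i <;> fin_cases j <;> simp [Lm, Matrix.mul_apply, Fin.sum_univ_four] <;> ring

lemma Rm_mul (p q : ℍ[ℝ]) : Rm (p * q) = Rm p * Rm q := by
  ext i j
  fin_cases i <;> fin_cases j <;> simp [Rm, Matrix.mul_apply, Fin.sum_univ_four] <;> ring

lemma LR_comm (p q : ℍ[ℝ]) : Rm p * Lm q = Lm q * Rm p := by
  ext i j
  fin_cases i <;> fin_cases j <;> simp [Rm, Lm, Matrix.mul_apply, Fin.sum_univ_four] <;> ring

lemma Lm_one : Lm 1 = 1 := by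
  ext i j
  fin_cases i <;> fin_cases j <;> simp [Lm]

lemma Rm_one : Rm 1 = 1 := by
  ext i j
  fin_cases i <;> fin_cases j <;> simp [Rm]

lemma Lm_star (q : ℍ[ℝ]) : (Lm q)ᵀ = Lm (star q) := by
  ext i j
  fin_cases i <;> fin_cases j <;> simp [Lm]

lemma Rm_star (q : ℍ[ℝ]) : (Rm q)ᵀ = Rm (star q) := by
  ext i j
  fin_cases i <;> fin_cases j <;> simp [Rm]

lemma Lm_det (q : ℍ[ℝ]) : (Lm q).det = normSq q ^ 2 := by
  rw [normSq_def']
  simp [Lm, Matrix.det_succ_row_zero, Fin.sum_univ_succ, Fin.succAbove]; ring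

lemma Rm_det (q : ℍ[ℝ]) : (Rm q).det = normSq q ^ 2 := by
  rw [normSq_def']
  simp [Rm, Matrix.det_succ_row_zero, Fin.sum_univ_succ, Fin.succAbove]; ring

def q4 (x : Fin 4 → ℝ) : ℍ[ℝ] := ⟨x 0, x 1, x 2, x 3⟩

lemma Lm_act (q : ℍ[ℝ]) (x : Fin 4 → ℝ) : q4 (Lm q *ᵥ x) = q * q4 x := by
  ext <;> simp [q4, Lm, Matrix.mulVec, dotProduct, Fin.sum_univ_four] <;> ring

lemma Rm_act (q : ℍ[ℝ]) (x : Fin 4 → ℝ) : q4 (Rm q *ᵥ x) = q4 x * star q := by
  ext <;> simp [q4, Rm, Matrix.mulVec, dotProduct, Fin.sum_univ_four] <;> ring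

lemma unit_normSq (q : unitary ℍ[ℝ]) : normSq (q : ℍ[ℝ]) = 1 := by
  have h := Unitary.coe_mul_star_self q
  rw [Unitary.coe_star, self_mul_star] at h
  simpa using congrArg QuaternionAlgebra.re h

structure Good {ι : Type} [Fintype ι] [DecidableEq ι] (ρ : F →* Matrix ι ι ℝ) : Prop where
  orth : ∀ w, ρ w * (ρ w)ᵀ = 1
  lc : ∀ u v (x : ι → ℝ), x ≠ 0 → ρ u *ᵥ x = x → ρ v *ᵥ x = x → u * v = v * u

structure Spec {ι : Type} [Fintype ι] [DecidableEq ι] (ρ : F →* Matrix ι ι ℝ) : Prop where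
  inj : ∀ w, ρ w = 1 → w = 1
  eig : ∃ w, ∃ x : ι → ℝ, x ≠ 0 ∧ ρ w *ᵥ x = -x

noncomputable def T3 (ε : F →* ℤˣ) : F →* Matrix (Fin 3) (Fin 3) ℝ where
  toFun w := ((ε w : ℤ) : ℝ) • C3 (φ w)
  map_one' := by simp [C3_one]
  map_mul' u v := by simp [C3_mul, smul_smul, mul_comm]

lemma eps_sq (e : ℤˣ) : ((e : ℤ) : ℝ) * ((e : ℤ) : ℝ) = 1 := by
  rcases Int.units_eq_one_or e with rfl | rfl <;> simp

lemma T3_sq (ε : F →* ℤˣ) (u : F) : T3 ε (u ^ 2) = C3 (φ (u ^ 2)) := by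
  show ((ε (u ^ 2) : ℤ) : ℝ) • C3 (φ (u ^ 2)) = _
  rw [map_pow ε, Int.units_sq]; simp

lemma comm_im (p q : ℍ[ℝ]) (x : Fin 3 → ℝ) (hx : x ≠ 0) (hp : p * im3 x = im3 x * p)
    (hq : q * im3 x = im3 x * q) : p * q = q * p := by
  have p1 := congrArg QuaternionAlgebra.imI hp
  have p2 := congrArg QuaternionAlgebra.imJ hp
  have p3 := congrArg QuaternionAlgebra.imK hp
  have q1 := congrArg QuaternionAlgebra.imI hq
  have q2 := congrArg QuaternionAlgebra.imJ hq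
  have q3 := congrArg QuaternionAlgebra.imK hq
  simp [im3] at p1 p2 p3 q1 q2 q3
  have hn : x 0 ^ 2 + x 1 ^ 2 + x 2 ^ 2 ≠ 0 := by
    intro h
    apply hx
    ext i
    fin_cases i <;> simp <;> nlinarith [sq_nonneg (x 0), sq_nonneg (x 1), sq_nonneg (x 2)]
  have k : ∀ a b : ℝ, (x 0 ^ 2 + x 1 ^ 2 + x 2 ^ 2) ^ 2 * (a - b) = 0 → a = b := fun a b h =>
    sub_eq_zero.1 ((mul_eq_zero.1 h).resolve_left (pow_ne_zero _ hn))
  set N := x 0 ^ 2 + x 1 ^ 2 + x 2 ^ 2 with hN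
  set a := p.imI * x 0 + p.imJ * x 1 + p.imK * x 2 with ha
  set b := q.imI * x 0 + q.imJ * x 1 + q.imK * x 2 with hb
  have s1 : N * p.imI = a * x 0 := by
    rw [hN, ha]; linear_combination (x 1 / 2) * p3 - (x 2 / 2) * p2
  have s2 : N * p.imJ = a * x 1 := by
    rw [hN, ha]; linear_combination (x 2 / 2) * p1 - (x 0 / 2) * p3
  have s3 : N * p.imK = a * x 2 := by
    rw [hN, ha]; linear_combination (x 0 / 2) * p2 - (x 1 / 2) * p1
  have t1 : N * q.imI = b * x 0 := by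
    rw [hN, hb]; linear_combination (x 1 / 2) * q3 - (x 2 / 2) * q2
  have t2 : N * q.imJ = b * x 1 := by
    rw [hN, hb]; linear_combination (x 2 / 2) * q1 - (x 0 / 2) * q3
  have t3 : N * q.imK = b * x 2 := by
    rw [hN, hb]; linear_combination (x 0 / 2) * q2 - (x 1 / 2) * q1
  have c1 : p.imJ * q.imK = p.imK * q.imJ := k _ _ (by
    linear_combination (N * q.imK) * s2 + (a * x 1) * t3 - (N * q.imJ) * s3 - (a * x 2) * t2)
  have c2 : p.imK * q.imI = p.imI * q.imK := k _ _ (by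
    linear_combination (N * q.imI) * s3 + (a * x 2) * t1 - (N * q.imK) * s1 - (a * x 0) * t3)
  have c3 : p.imI * q.imJ = p.imJ * q.imI := k _ _ (by
    linear_combination (N * q.imJ) * s1 + (a * x 0) * t2 - (N * q.imI) * s2 - (a * x 1) * t1)
  ext <;> simp <;> linarith

lemma C3_fix (q : unitary ℍ[ℝ]) (x : Fin 3 → ℝ) (h : C3 q *ᵥ x = x) :
    (q : ℍ[ℝ]) * im3 x = im3 x * q := by
  have h1 := C3_act q x
  rw [h] at h1
  conv_rhs => rw [h1, mul_assoc, Unitary.coe_star_mul_self, mul_one]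

lemma sq_fix {ι : Type} [Fintype ι] [DecidableEq ι] (ρ : F →* Matrix ι ι ℝ) (u : F) (x : ι → ℝ)
    (h : ρ u *ᵥ x = x) : ρ (u ^ 2) *ᵥ x = x := by
  rw [sq, _root_.map_mul, ← Matrix.mulVec_mulVec, h, h]

lemma T3_good (ε : F →* ℤˣ) : Good (T3 ε) where
  orth w := by
    show ((ε w : ℤ) : ℝ) • C3 (φ w) * (((ε w : ℤ) : ℝ) • C3 (φ w))ᵀ = 1
    rw [transpose_smul, smul_mul_smul_comm, eps_sq, one_smul, C3_star, ← C3_mul,
      ← Unitary.coe_star, Unitary.coe_mul_star_self, C3_one]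
  lc u v x hx hu hv := by
    have h1 := sq_fix _ u x hu
    have h2 := sq_fix _ v x hv
    rw [T3_sq] at h1 h2
    apply comm_of_sq
    apply φ_inj
    rw [_root_.map_mul, _root_.map_mul]
    exact Subtype.ext (comm_im _ _ x hx (C3_fix _ x h1) (C3_fix _ x h2))

lemma T3_det (ε : F →* ℤˣ) (w : F) : (T3 ε w).det = ((ε w : ℤ) : ℝ) := by
  show (((ε w : ℤ) : ℝ) • C3 (φ w)).det = _
  rw [det_smul, C3_det, unit_normSq]
  rcases Int.units_eq_one_or (ε w) with h | h <;> rw [h] <;> norm_num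

lemma T3_inj (ε : F →* ℤˣ) (w : F) (h : T3 ε w = 1) : w = 1 := by
  have h1 : T3 ε (w ^ 2) = 1 := by rw [map_pow, h, one_pow]
  rw [T3_sq] at h1
  have a := C3_fix (φ (w ^ 2)) ![1, 0, 0] (by rw [h1, one_mulVec])
  have b := C3_fix (φ (w ^ 2)) ![0, 1, 0] (by rw [h1, one_mulVec])
  have a2 := congrArg QuaternionAlgebra.imJ a
  have a3 := congrArg QuaternionAlgebra.imK a
  have b3 := congrArg QuaternionAlgebra.imK b
  simp only [im3] at a2 a3 b3
  generalize hq : (φ (w ^ 2) : ℍ[ℝ]) = q at a2 a3 b3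
  simp at a2 a3 b3
  have : w ^ 2 = 1 := by
    apply free_im <;> rw [hq] <;> linarith
  exact pow_left_injective (n := 2) (by norm_num) (by simpa using this)

noncomputable def sg : F →* ℤˣ := FreeGroup.lift fun _ => -1

lemma T3_eig : T3 sg (of 0) *ᵥ ![1, 0, 0] = -![1, 0, 0] := by
  show (((sg (of 0) : ℤ) : ℝ) • C3 (φ (of 0))) *ᵥ _ = _
  rw [sg, φ, lift_apply_of, lift_apply_of]
  ext i
  fin_cases i <;> simp [C3, gen, Matrix.mulVec, dotProduct, Fin.sum_univ_three] <;> norm_num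

noncomputable def ψ : F →* unitary ℍ[ℝ] := FreeGroup.lift ![-gen 0, 1]

lemma ψ_comm (u v : F) : ψ u * ψ v = ψ v * ψ u := by
  have : ψ.range ≤ Subgroup.zpowers (-gen 0) := by
    apply FreeGroup.range_lift_le
    rintro _ ⟨i, rfl⟩
    fin_cases i
    · exact Subgroup.mem_zpowers _
    · exact Subgroup.one_mem _
  obtain ⟨m, hm⟩ := this ⟨u, rfl⟩
  obtain ⟨n, hn⟩ := this ⟨v, rfl⟩
  rw [← hm, ← hn]
  exact zpow_mul_comm _ _ _

noncomputable def Q4 : F →* Matrix (Fin 4) (Fin 4) ℝ where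
  toFun w := Lm (φ w) * Rm (ψ w)
  map_one' := by simp [Lm_one, Rm_one]
  map_mul' u v := by
    simp only [_root_.map_mul, Submonoid.coe_mul, Lm_mul, Rm_mul, Matrix.mul_assoc]
    rw [← Matrix.mul_assoc (Rm _) (Lm _), LR_comm, Matrix.mul_assoc]

lemma Q4_act (w : F) (x : Fin 4 → ℝ) :
    q4 (Q4 w *ᵥ x) = φ w * (q4 x * star (ψ w : ℍ[ℝ])) := by
  show q4 ((Lm (φ w) * Rm (ψ w)) *ᵥ x) = _
  rw [← Matrix.mulVec_mulVec, Lm_act, Rm_act]

lemma Q4_fix (w : F) (x : Fin 4 → ℝ) (h : Q4 w *ᵥ x = x) :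
    (φ w : ℍ[ℝ]) * q4 x = q4 x * ψ w := by
  have h1 := Q4_act w x
  rw [h] at h1
  conv_rhs => rw [h1, mul_assoc, mul_assoc, Unitary.coe_star_mul_self, mul_one]

lemma Q4_good : Good Q4 where
  orth w := by
    show Lm (φ w) * Rm (ψ w) * (Lm (φ w) * Rm (ψ w))ᵀ = 1
    rw [transpose_mul, Lm_star, Rm_star, Matrix.mul_assoc, ← Matrix.mul_assoc (Rm _), ← Rm_mul,
      ← Unitary.coe_star, Unitary.coe_mul_star_self, Rm_one, Matrix.one_mul, ← Lm_mul,
      ← Unitary.coe_star, Unitary.coe_mul_star_self, Lm_one]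
  lc u v x hx hu hv := by
    have h1 := Q4_fix u x hu
    have h2 := Q4_fix v x hv
    have hx' : q4 x ≠ 0 := by
      intro h
      apply hx
      have a := congrArg QuaternionAlgebra.re h
      have b := congrArg QuaternionAlgebra.imI h
      have c := congrArg QuaternionAlgebra.imJ h
      have d := congrArg QuaternionAlgebra.imK h
      simp [q4] at a b c d
      ext i; fin_cases i <;> simp [a, b, c, d]
    apply φ_inj
    rw [_root_.map_mul, _root_.map_mul]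
    apply Subtype.ext
    apply mul_right_cancel₀ hx'
    have hc := congrArg Subtype.val (ψ_comm u v)
    simp only [Submonoid.coe_mul] at hc ⊢
    rw [mul_assoc, h2, ← mul_assoc, h1, mul_assoc, hc, mul_assoc, h1, ← mul_assoc, ← mul_assoc, h2]

lemma Q4_det (w : F) : (Q4 w).det = 1 := by
  show (Lm (φ w) * Rm (ψ w)).det = 1
  rw [det_mul, Lm_det, Rm_det, unit_normSq, unit_normSq]; norm_num

lemma Q4_eig : Q4 (of 0) *ᵥ ![1, 0, 0, 0] = -![1, 0, 0, 0] := by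
  show (Lm (φ (of 0)) * Rm (ψ (of 0))) *ᵥ _ = _
  rw [← Matrix.mulVec_mulVec, ψ, φ, lift_apply_of, lift_apply_of]
  have e : ((![-gen 0, 1] : Fin 2 → unitary ℍ[ℝ]) 0 : ℍ[ℝ]) = -(gen 0 : ℍ[ℝ]) := rfl
  rw [e]
  ext i
  fin_cases i <;> simp [Lm, Rm, gen, Matrix.mulVec, dotProduct, Fin.sum_univ_four] <;> norm_num

lemma Q4_inj (w : F) (h : Q4 w = 1) : w = 1 := by
  have a := Q4_fix w ![1, 0, 0, 0] (by rw [h, one_mulVec])
  have b := Q4_fix w ![0, 1, 0, 0] (by rw [h, one_mulVec])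
  have c := Q4_fix w ![0, 0, 1, 0] (by rw [h, one_mulVec])
  have a1 := congrArg QuaternionAlgebra.imI a
  have a2 := congrArg QuaternionAlgebra.imJ a
  have a3 := congrArg QuaternionAlgebra.imK a
  have b2 := congrArg QuaternionAlgebra.imJ b
  have b3 := congrArg QuaternionAlgebra.imK b
  have c3 := congrArg QuaternionAlgebra.imK c
  simp only [q4] at a1 a2 a3 b2 b3 c3
  generalize hq : (φ w : ℍ[ℝ]) = q at *
  generalize (ψ w : ℍ[ℝ]) = r at *
  simp at a1 a2 a3 b2 b3 c3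
  apply free_im <;> rw [hq] <;> linarith

def dsum {ι κ : Type} [Fintype ι] [DecidableEq ι] [Fintype κ] [DecidableEq κ]
    (ρ : F →* Matrix ι ι ℝ) (σ : F →* Matrix κ κ ℝ) : F →* Matrix (ι ⊕ κ) (ι ⊕ κ) ℝ where
  toFun w := fromBlocks (ρ w) 0 0 (σ w)
  map_one' := by simp
  map_mul' u v := by simp [fromBlocks_multiply]

section ds
variable {ι κ : Type} [Fintype ι] [DecidableEq ι] [Fintype κ] [DecidableEq κ]
  {ρ : F →* Matrix ι ι ℝ} {σ : F →* Matrix κ κ ℝ}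

lemma dsum_apply (w : F) : dsum ρ σ w = fromBlocks (ρ w) 0 0 (σ w) := rfl

lemma dsum_good (h1 : Good ρ) (h2 : Good σ) : Good (dsum ρ σ) where
  orth w := by
    simp [dsum_apply, fromBlocks_transpose, fromBlocks_multiply, h1.orth, h2.orth]
  lc u v x hx hu hv := by
    rw [dsum_apply, fromBlocks_mulVec] at hu hv
    simp only [zero_mulVec, add_zero, zero_add] at hu hv
    by_cases h : x ∘ Sum.inl = 0
    · have h' : x ∘ Sum.inr ≠ 0 := by
        intro h'; apply hx; ext i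
        cases i with
        | inl i => exact congrFun h i
        | inr i => exact congrFun h' i
      exact h2.lc u v _ h' (funext fun i => congrFun hu (Sum.inr i))
        (funext fun i => congrFun hv (Sum.inr i))
    · exact h1.lc u v _ h (funext fun i => congrFun hu (Sum.inl i))
        (funext fun i => congrFun hv (Sum.inl i))

lemma dsum_spec (h1 : Spec ρ) : Spec (dsum ρ σ) where
  inj w hw := by
    rw [dsum_apply, ← fromBlocks_one, fromBlocks_inj] at hw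
    exact h1.inj w hw.1
  eig := by
    obtain ⟨w, x, hx, h⟩ := h1.eig
    refine ⟨w, Sum.elim x 0, fun h0 => hx (funext fun i => congrFun h0 (Sum.inl i)), ?_⟩
    rw [dsum_apply, fromBlocks_mulVec]
    ext i
    cases i <;> simp [h]

lemma dsum_det (w : F) : (dsum ρ σ w).det = (ρ w).det * (σ w).det := by
  rw [dsum_apply, det_fromBlocks_zero₂₁]

end ds

def P (n : ℕ) : Prop := ∃ (ι : Type) (_ : Fintype ι) (_ : DecidableEq ι)
  (ρ : F →* Matrix ι ι ℝ), Fintype.card ι = n ∧ Good ρ ∧ Spec ρ ∧ ∀ w, (ρ w).det = 1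

lemma P4 : P 4 := ⟨Fin 4, inferInstance, inferInstance, Q4, rfl, Q4_good,
  ⟨Q4_inj, of 0, _, by intro h; simpa using congrFun h 0, Q4_eig⟩, Q4_det⟩

lemma P6 : P 6 := ⟨Fin 3 ⊕ Fin 3, inferInstance, inferInstance, dsum (T3 sg) (T3 sg), rfl,
  dsum_good (T3_good _) (T3_good _),
  dsum_spec ⟨T3_inj _, of 0, _, by intro h; simpa using congrFun h 0, T3_eig⟩,
  fun w => by rw [dsum_det, T3_det, eps_sq]⟩

lemma P_add3 {n : ℕ} (h : P n) : P (n + 3) := by
  obtain ⟨ι, _, _, ρ, h1, h2, h3, h4⟩ := h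
  exact ⟨ι ⊕ Fin 3, inferInstance, inferInstance, dsum ρ (T3 1), by simp [h1],
    dsum_good h2 (T3_good _), dsum_spec h3, fun w => by rw [dsum_det, T3_det, h4]; simp⟩

lemma P_add4 {n : ℕ} (h : P n) : P (n + 4) := by
  obtain ⟨ι, _, _, ρ, h1, h2, h3, h4⟩ := h
  exact ⟨ι ⊕ Fin 4, inferInstance, inferInstance, dsum ρ Q4, by simp [h1],
    dsum_good h2 Q4_good, dsum_spec h3, fun w => by rw [dsum_det, Q4_det, h4]; simp⟩

lemma P_all (n : ℕ) (h : 6 ≤ n) : P n := by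
  induction n using Nat.strong_induction_on with
  | _ n ih =>
    by_cases h9 : 9 ≤ n
    · obtain ⟨m, rfl⟩ : ∃ m, n = m + 3 := ⟨n - 3, by omega⟩
      exact P_add3 (ih m (by omega) (by omega))
    · have : n = 6 ∨ n = 7 ∨ n = 8 := by omega
      rcases this with rfl | rfl | rfl
      · exact P6
      · exact P_add3 P4
      · exact P_add4 P4

theorem result (n : ℕ) (hn : n = 4 ∨ 6 ≤ n) :
    ∃ G : Subgroup (Matrix.specialOrthogonalGroup (Fin n) ℝ),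
      Nonempty (G ≃* FreeGroup (Fin 2)) ∧
      (∀ g ∈ G, ∀ h ∈ G, ∀ x : Fin n → ℝ, x ⬝ᵥ x = 1 →
        (g : Matrix (Fin n) (Fin n) ℝ) *ᵥ x = x → (h : Matrix (Fin n) (Fin n) ℝ) *ᵥ x = x →
        g * h = h * g) ∧
      ∃ g ∈ G, ∃ x : Fin n → ℝ, x ≠ 0 ∧ (g : Matrix (Fin n) (Fin n) ℝ) *ᵥ x = -x := by
  have hP : P n := by
    rcases hn with rfl | hn
    · exact P4
    · exact P_all n hn
  obtain ⟨ι, _, _, ρ, h1, h2, h3, h4⟩ := hP
  let e : ι ≃ Fin n := Fintype.equivFinOfCardEq h1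
  let σ : F →* Matrix.specialOrthogonalGroup (Fin n) ℝ :=
    { toFun := fun w => ⟨(ρ w).submatrix e.symm e.symm, by
        rw [mem_specialOrthogonalGroup_iff, mem_orthogonalGroup_iff]
        refine ⟨?_, by rw [det_submatrix_equiv_self, h4]⟩
        rw [transpose_submatrix, submatrix_mul_equiv, h2.orth, submatrix_one_equiv]⟩
      map_one' := Subtype.ext (by simp)
      map_mul' := fun u v => Subtype.ext (by simp) }
  have hσ : ∀ w, (σ w : Matrix (Fin n) (Fin n) ℝ) = (ρ w).submatrix e.symm e.symm := fun _ => rfl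
  have hinj : Function.Injective σ := by
    rw [injective_iff_map_eq_one]
    intro w hw
    apply h3.inj
    have := congrArg (fun m : Matrix.specialOrthogonalGroup (Fin n) ℝ =>
      (m : Matrix (Fin n) (Fin n) ℝ).submatrix e e) hw
    simpa [hσ] using this
  have hv : ∀ w (x : Fin n → ℝ), (σ w : Matrix (Fin n) (Fin n) ℝ) *ᵥ x =
      (ρ w *ᵥ (x ∘ e)) ∘ e.symm := by
    intro w x; rw [hσ, submatrix_mulVec_equiv]; simp
  refine ⟨σ.range, ⟨(MonoidHom.ofInjective hinj).symm⟩, ?_, ?_⟩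
  · rintro _ ⟨u, rfl⟩ _ ⟨v, rfl⟩ x hx hu hw
    have hx0 : x ∘ e ≠ 0 := by
      intro h
      have : x = 0 := by ext i; simpa using congrFun h (e.symm i)
      rw [this] at hx; simp at hx
    have k : ∀ w, (σ w : Matrix (Fin n) (Fin n) ℝ) *ᵥ x = x → ρ w *ᵥ (x ∘ e) = x ∘ e := by
      intro w h
      rw [hv] at h
      ext i; simpa using congrFun h (e i)
    rw [← _root_.map_mul, ← _root_.map_mul, h2.lc u v _ hx0 (k u hu) (k v hw)]
  · obtain ⟨w, x, hx, h⟩ := h3.eig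
    refine ⟨σ w, ⟨w, rfl⟩, x ∘ e.symm, ?_, ?_⟩
    · intro h0; apply hx; ext i; simpa using congrFun h0 (e i)
    · rw [hv]
      have : (x ∘ e.symm) ∘ e = x := by ext i; simp
      rw [this, h]; rfl

end Pool.Agent.Results.MP_6087e2_al.All
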